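import Pool.Agent.N657.QL.Stm

/-!
Project QL (helper657), task SYM: symmetries of the neutral ground state.
-/

namespace Pool.Agent.N498.QL_SYM

open Pool.Agent.N657.QR Pool.Agent.N657.QL

section

variable {V : Type} [Fintype V] [DecidableEq V]

/-- a symmetry of the energy maps ground states to ground states -/
lemma isG_comp {K : Matrix V V ℝ} {w : V → V → ℝ} {ν : V → ℝ} {Ψ : (V → ℤ) → ℝ}
    (h : IsG K w ν 0 Ψ) (e : (V → ℤ) ≃ (V → ℤ)) (hsq : ∀ n, N657.QR.sq (e n) = N657.QR.sq n)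
    (hpot : ∀ n, pot K ν (e n) = pot K ν n) (htot : ∀ n, tot (e n) = 0 → tot n = 0)
    (hcr : (∑ x, ∑ y, w x y * cr x y (fun n => Ψ (e n))) = ∑ x, ∑ y, w x y * cr x y Ψ) :
    IsG K w ν 0 (fun n => Ψ (e n)) := by
  obtain ⟨⟨h1, h2⟩, h3, h4, h5⟩ := h
  refine ⟨⟨?_, ?_⟩, ?_, ?_, ?_⟩
  · exact (e.summable_iff (f := fun n => Ψ n ^ 2)).mpr h1
  · have := (e.summable_iff (f := fun n => N657.QR.sq n * Ψ n ^ 2)).mpr h2
    refine this.congr fun n => ?_
    rw [Function.comp_apply, hsq]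
  · intro n hn
    exact htot n (h3 _ hn)
  · rw [← h4]
    exact e.tsum_eq (fun n => Ψ n ^ 2)
  · rw [← h5]
    unfold FF
    rw [hcr]
    congr 1
    unfold po
    rw [← e.tsum_eq (fun n => pot K ν n * Ψ n ^ 2)]
    exact tsum_congr fun n => by rw [hpot]

end

section

variable {d L : ℕ} [NeZero L]

lemma nnw_nonneg (x y : Fin d → ZMod L) : 0 ≤ nnw 1 x y := by
  unfold nnw
  refine Finset.sum_nonneg fun i _ => ?_
  split_ifs <;> norm_num

lemma nnw_pos (x : Fin d → ZMod L) (i : Fin d) : 0 < nnw 1 x (x + ee i) := by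
  unfold nnw
  refine Finset.sum_pos' (fun j _ => ?_) ⟨i, Finset.mem_univ i, ?_⟩
  · split_ifs <;> norm_num
  · rw [if_pos rfl]; norm_num

lemma nnw_trans (x y a : Fin d → ZMod L) : nnw 1 (x + a) (y + a) = nnw 1 x y := by
  unfold nnw
  refine Finset.sum_congr rfl fun i _ => ?_
  have : y + a = x + a + ee i ↔ y = x + ee i := by
    rw [add_right_comm, add_left_inj]
  simp only [this]

/-- translation of a configuration -/
def tr (a : Fin d → ZMod L) : ((Fin d → ZMod L) → ℤ) ≃ ((Fin d → ZMod L) → ℤ) where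
  toFun := fun n x => n (x + a)
  invFun := fun n x => n (x - a)
  left_inv := fun n => by funext x; simp
  right_inv := fun n => by funext x; simp

lemma tr_hp (a x y : Fin d → ZMod L) (n : (Fin d → ZMod L) → ℤ) :
    tr a (hp x y n) = hp (x - a) (y - a) (tr a n) := by
  funext z
  have h : ∀ x z : Fin d → ZMod L, dl x (z + a) = dl (x - a) z := by
    intro x z
    unfold dl
    rw [Pi.single_apply, Pi.single_apply]
    have : z + a = x ↔ z = x - a := eq_sub_iff_add_eq.symm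
    simp only [this]
  change (n + dl x - dl y) (z + a) = (tr a n + dl (x - a) - dl (y - a)) z
  rw [Pi.sub_apply, Pi.add_apply, Pi.sub_apply, Pi.add_apply, h, h]
  rfl

lemma sum_tr {M : Type} [AddCommMonoid M] (a : Fin d → ZMod L) (g : (Fin d → ZMod L) → M) :
    ∑ x, g (x + a) = ∑ x, g x := Equiv.sum_comp (Equiv.addRight a) g

lemma sq_tr (a : Fin d → ZMod L) (n : (Fin d → ZMod L) → ℤ) : N657.QR.sq (tr a n) = N657.QR.sq n :=
  sum_tr a (fun x => (n x : ℝ) ^ 2)

lemma tot_tr (a : Fin d → ZMod L) (n : (Fin d → ZMod L) → ℤ) : tot (tr a n) = tot n :=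
  sum_tr a n

lemma sum2_tr (a : Fin d → ZMod L) (F : (Fin d → ZMod L) → (Fin d → ZMod L) → ℝ) :
    ∑ x, ∑ y, F (x + a) (y + a) = ∑ x, ∑ y, F x y := by
  rw [← sum_tr a (fun x => ∑ y, F x y)]
  exact Finset.sum_congr rfl fun x _ => sum_tr a (fun y => F (x + a) y)

lemma pot_tr (U : ℝ) (a : Fin d → ZMod L) (n : (Fin d → ZMod L) → ℤ) :
    pot (U • (1 : Matrix (Fin d → ZMod L) (Fin d → ZMod L) ℝ)) 0 (tr a n) =
      pot (U • (1 : Matrix (Fin d → ZMod L) (Fin d → ZMod L) ℝ)) 0 n := by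
  have h : ∀ x y, (U • (1 : Matrix (Fin d → ZMod L) (Fin d → ZMod L) ℝ)) (x + a) (y + a) =
      (U • (1 : Matrix (Fin d → ZMod L) (Fin d → ZMod L) ℝ)) x y := by
    intro x y
    rw [Matrix.smul_apply, Matrix.smul_apply, Matrix.one_apply, Matrix.one_apply]
    simp only [add_left_inj]
  have h2 := sum2_tr a (fun x y => (U • (1 : Matrix (Fin d → ZMod L) (Fin d → ZMod L) ℝ)) x y *
    (((n x : ℝ) - (0 : (Fin d → ZMod L) → ℝ) x) * ((n y : ℝ) - (0 : (Fin d → ZMod L) → ℝ) y)))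
  refine Eq.trans (Finset.sum_congr rfl fun x _ => Finset.sum_congr rfl fun y _ => ?_) h2
  simp only [h, Pi.zero_apply]
  rfl

lemma cr_tr (a x y : Fin d → ZMod L) (Ψ : ((Fin d → ZMod L) → ℤ) → ℝ) :
    cr x y (fun n => Ψ (tr a n)) = cr (x - a) (y - a) Ψ := by
  unfold cr
  rw [← (tr a).tsum_eq (fun n => Ψ (hp (x - a) (y - a) n) * Ψ n)]
  refine tsum_congr fun n => ?_
  change Ψ (tr a (hp x y n)) * Ψ (tr a n) = _
  rw [tr_hp]

lemma sumcr_tr (a : Fin d → ZMod L) (Ψ : ((Fin d → ZMod L) → ℤ) → ℝ) :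
    (∑ x, ∑ y, nnw 1 x y * cr x y (fun n => Ψ (tr a n))) = ∑ x, ∑ y, nnw 1 x y * cr x y Ψ := by
  rw [← sum2_tr a (fun x y => nnw 1 x y * cr x y (fun n => Ψ (tr a n)))]
  refine Finset.sum_congr rfl fun x _ => Finset.sum_congr rfl fun y _ => ?_
  rw [nnw_trans, cr_tr, add_sub_cancel_right, add_sub_cancel_right]

end

section

variable {V : Type} [Fintype V] [DecidableEq V]

lemma hp_neg (x y : V) (n : V → ℤ) : -(hp x y n) = hp y x (-n) := by
  unfold hp; abel

lemma cr_neg (hB : S_BAS) (x y : V) (Ψ : (V → ℤ) → ℝ) :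
    cr x y (fun n => Ψ (-n)) = cr x y Ψ := by
  rw [hB.crcomm x y Ψ]
  unfold cr
  rw [← (Equiv.neg (V → ℤ)).tsum_eq (fun n => Ψ (hp y x n) * Ψ n)]
  refine tsum_congr fun n => ?_
  change Ψ (-(hp x y n)) * Ψ (-n) = Ψ (hp y x (-n)) * Ψ (-n)
  rw [hp_neg]

lemma sq_neg' (n : V → ℤ) : N657.QR.sq (-n) = N657.QR.sq n := by
  unfold N657.QR.sq
  refine Finset.sum_congr rfl fun x _ => ?_
  rw [Pi.neg_apply]
  push_cast
  ring

lemma tot_neg' (n : V → ℤ) : tot (-n) = -tot n := by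
  unfold tot
  rw [← Finset.sum_neg_distrib]
  rfl

lemma pot_neg (K : Matrix V V ℝ) (n : V → ℤ) : pot K 0 (-n) = pot K 0 n := by
  unfold pot
  refine Finset.sum_congr rfl fun x _ => Finset.sum_congr rfl fun y _ => ?_
  simp only [Pi.neg_apply, Pi.zero_apply]
  push_cast
  ring

end

/-- two functions equal up to sign have the same products -/
lemma prod_eq {α : Type} {f g : α → ℝ} (h : (∀ n, g n = f n) ∨ ∀ n, g n = -f n) (n n' : α) :
    g n * g n' = f n * f n' := by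
  rcases h with h | h
  · rw [h, h]
  · rw [h, h]; ring

/-- SYM -/
theorem main (hB : S_BAS) (hU : S_UN) (hC : S_CON) : S_SYM := by
  intro d L _ U Ψ hU0 hG
  have hconn : Conn (nnw (d := d) (L := L) 1) := hC.1 _ (hC.2.1 d L _ (fun x i => nnw_pos x i))
  have hpd : (U • (1 : Matrix (Fin d → ZMod L) (Fin d → ZMod L) ℝ)).PosDef :=
    Matrix.PosDef.one.smul hU0
  refine ⟨fun n n' => ?_, fun a n n' => ?_⟩
  · have h1 := isG_comp hG (Equiv.neg _) (fun n => sq_neg' n) (fun n => pot_neg _ n)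
      (fun n hn => by
        have h2 : -tot n = 0 := (tot_neg' n).symm.trans hn
        omega)
      (Finset.sum_congr rfl fun x _ => Finset.sum_congr rfl fun y _ => by
        congr 1
        exact cr_neg hB x y Ψ)
    exact prod_eq (hU _ _ _ _ _ _ hpd (fun x y => nnw_nonneg x y) hconn hG h1).2 n n'
  · have h1 := isG_comp hG (tr a) (fun n => sq_tr a n) (fun n => pot_tr U a n)
      (fun n hn => (tot_tr a n).symm.trans hn) (sumcr_tr a Ψ)
    exact prod_eq (hU _ _ _ _ _ _ hpd (fun x y => nnw_nonneg x y) hconn hG h1).2 n n'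

end Pool.Agent.N498.QL_SYM
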