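import Pool.Agent.N646.BX.Stm

/-! BX/AVG (for helper646): in a box with few good vectors most subboxes have few good vectors. -/

set_option autoImplicit false

namespace Pool.Agent.N498.BXA

open Finset
open Pool.Agent.N646.BX

variable {k : ℕ}

/-- the box -/
noncomputable def bx (k T : ℕ) : Finset (Fin k → ℤ) := Fintype.piFinset (fun _ : Fin k => Ico 0 (T : ℤ))

theorem mem_bx {T : ℕ} {y : Fin k → ℤ} : y ∈ bx k T ↔ ∀ j, y j ∈ Ico 0 (T : ℤ) := by
  unfold bx
  rw [Fintype.mem_piFinset]

theorem card_bx (k T : ℕ) : (bx k T).card = T ^ k := by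
  unfold bx
  rw [Fintype.card_piFinset]
  simp

theorem bad1 (T : ℕ) (a : ℤ) :
    ((Ico 0 (T : ℤ)).filter (fun x => ¬ (x + a ∈ Ico 0 (T : ℤ)))).card ≤ a.natAbs := by
  rcases le_total 0 a with h | h
  · have h1 : (Ico 0 (T : ℤ)).filter (fun x => ¬ (x + a ∈ Ico 0 (T : ℤ))) ⊆ Ico ((T : ℤ) - a) T := by
      intro x hx
      rw [mem_filter, mem_Ico, mem_Ico] at hx
      rw [mem_Ico]
      omega
    refine (card_le_card h1).trans ?_
    rw [Int.card_Ico]
    omega
  · have h1 : (Ico 0 (T : ℤ)).filter (fun x => ¬ (x + a ∈ Ico 0 (T : ℤ))) ⊆ Ico 0 (-a) := by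
      intro x hx
      rw [mem_filter, mem_Ico, mem_Ico] at hx
      rw [mem_Ico]
      omega
    refine (card_le_card h1).trans ?_
    rw [Int.card_Ico]
    omega

theorem badj (T : ℕ) (j : Fin k) (a : ℤ) :
    ((bx k T).filter (fun y => ¬ (y j + a ∈ Ico 0 (T : ℤ)))).card * T ≤ a.natAbs * T ^ k := by
  classical
  obtain ⟨S, hS⟩ : ∃ S : Finset ℤ, S = (Ico 0 (T : ℤ)).filter (fun x => ¬ (x + a ∈ Ico 0 (T : ℤ))) :=
    ⟨_, rfl⟩
  have h1 : (bx k T).filter (fun y => ¬ (y j + a ∈ Ico 0 (T : ℤ))) =
      Fintype.piFinset (Function.update (fun _ : Fin k => Ico 0 (T : ℤ)) j S) := by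
    ext y
    rw [mem_filter, mem_bx, Fintype.mem_piFinset]
    constructor
    · rintro ⟨h2, h3⟩ i
      by_cases hi : i = j
      · subst hi
        rw [Function.update_self, hS, mem_filter]
        exact ⟨h2 i, h3⟩
      · rw [Function.update_of_ne hi]
        exact h2 i
    · intro h2
      have h3 := h2 j
      rw [Function.update_self, hS, mem_filter] at h3
      refine ⟨fun i => ?_, h3.2⟩
      by_cases hi : i = j
      · subst hi
        exact h3.1
      · have h4 := h2 i
        rwa [Function.update_of_ne hi] at h4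
  have h2 : ∀ i, (Function.update (fun _ : Fin k => Ico 0 (T : ℤ)) j S i).card =
      Function.update (fun _ : Fin k => T) j S.card i := by
    intro i
    by_cases hi : i = j
    · subst hi
      rw [Function.update_self, Function.update_self]
    · rw [Function.update_of_ne hi, Function.update_of_ne hi]
      simp
  rw [h1, Fintype.card_piFinset, Finset.prod_congr rfl fun i _ => h2 i,
    Finset.prod_update_of_mem (mem_univ j), sdiff_singleton_eq_erase, mul_assoc]
  have h3 : (∏ _x ∈ (univ : Finset (Fin k)).erase j, T) * T = T ^ k := by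
    have h4 := Finset.mul_prod_erase (univ : Finset (Fin k)) (fun _ => T) (mem_univ j)
    rw [mul_comm, h4]
    simp
  rw [h3]
  apply Nat.mul_le_mul_right
  rw [hS]
  exact bad1 T a

theorem shift_le (T : ℕ) (a : Fin k → ℤ) (P : (Fin k → ℤ) → Prop) [DecidablePred P] :
    ((bx k T).filter (fun y => P (fun j => y j + a j))).card * T ≤
      ((bx k T).filter P).card * T + ∑ j, (a j).natAbs * T ^ k := by
  classical
  have h1 : (bx k T).filter (fun y => P (fun j => y j + a j)) ⊆
      (bx k T).filter (fun y => P (fun j => y j + a j) ∧ (fun j => y j + a j) ∈ bx k T) ∪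
        univ.biUnion (fun j : Fin k => (bx k T).filter (fun y => ¬ (y j + a j ∈ Ico 0 (T : ℤ)))) := by
    intro y hy
    rw [mem_filter] at hy
    rw [mem_union]
    by_cases h : (fun j => y j + a j) ∈ bx k T
    · left
      rw [mem_filter]
      exact ⟨hy.1, hy.2, h⟩
    · right
      rw [mem_bx] at h
      push Not at h
      obtain ⟨j, hj⟩ := h
      rw [mem_biUnion]
      exact ⟨j, mem_univ j, mem_filter.2 ⟨hy.1, hj⟩⟩
  have h2 : ((bx k T).filter
      (fun y => P (fun j => y j + a j) ∧ (fun j => y j + a j) ∈ bx k T)).card ≤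
      ((bx k T).filter P).card := by
    refine Finset.card_le_card_of_injOn (fun y => fun j => y j + a j) ?_ ?_
    · intro y hy
      rw [mem_coe, mem_filter] at hy
      exact mem_coe.2 (mem_filter.2 ⟨hy.2.2, hy.2.1⟩)
    · intro y _ z _ hyz
      funext j
      have := congrFun hyz j
      simp only at this
      linarith
  have h3 := (card_le_card h1).trans (card_union_le _ _)
  have h4 : (univ.biUnion (fun j : Fin k =>
      (bx k T).filter (fun y => ¬ (y j + a j ∈ Ico 0 (T : ℤ))))).card * T ≤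
      ∑ j, (a j).natAbs * T ^ k := by
    refine (Nat.mul_le_mul_right T card_biUnion_le).trans ?_
    rw [Finset.sum_mul]
    exact Finset.sum_le_sum fun j _ => badj T j (a j)
  calc _ ≤ (((bx k T).filter P).card + (univ.biUnion (fun j : Fin k =>
      (bx k T).filter (fun y => ¬ (y j + a j ∈ Ico 0 (T : ℤ))))).card) * T :=
        Nat.mul_le_mul_right T (h3.trans (Nat.add_le_add_right h2 _))
    _ = ((bx k T).filter P).card * T + (univ.biUnion (fun j : Fin k =>
      (bx k T).filter (fun y => ¬ (y j + a j ∈ Ico 0 (T : ℤ))))).card * T := by ring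
    _ ≤ _ := Nat.add_le_add_left h4 _

theorem main : S_AVG := by
  classical
  intro k ε hε T' m' R hT' hm'
  obtain ⟨T₀, hT₀⟩ := exists_nat_ge ((k : ℝ) * (R + m' * T') / ε + 1)
  refine ⟨T₀, fun T hT g c N γ lam hlam hlow hup b hb => ?_⟩
  have hTr : (k : ℝ) * (R + m' * T') / ε + 1 ≤ T := hT₀.trans (by exact_mod_cast hT)
  have h0 : 0 ≤ (k : ℝ) * (R + m' * T') / ε := by positivity
  have hT0 : (0 : ℝ) < T := by linarith
  have hkT : (k : ℝ) * (R + m' * T') ≤ ε * T := by
    have : (k : ℝ) * (R + m' * T') / ε ≤ T := by linarith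
    rw [div_le_iff₀ hε] at this
    linarith
  have hT'0 : (0 : ℝ) < (T' : ℝ) ^ k := by
    have : (0 : ℝ) < T' := by exact_mod_cast hT'
    positivity
  obtain ⟨F, hF⟩ : ∃ F : (Fin k → ℤ) → Prop, F = fun z => g (fun j => c j + N * z j) := ⟨_, rfl⟩
  have hcnt : (cnt g c N T : ℕ) = ((bx k T).filter F).card := by
    unfold cnt bx
    rw [hF]
  -- the counting function of a subbox
  have hsub : ∀ y : Fin k → ℤ, cnt g (fun j => c j + N * (y j + b j)) (N * m') T' =
      ((bx k T').filter (fun t => F (fun j => y j + (b j + m' * t j)))).card := by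
    intro y
    unfold cnt bx
    rw [hF]
    congr 1
    refine Finset.filter_congr fun t _ => ?_
    have e : (fun j => c j + (N : ℤ) * (y j + b j) + ((N * m' : ℕ) : ℤ) * t j) =
        fun j => c j + (N : ℤ) * (y j + (b j + m' * t j)) := by
      funext j
      push_cast
      ring
    rw [e]
  -- one vector t
  have hone : ∀ t ∈ bx k T', (((bx k T).filter
      (fun y => F (fun j => y j + (b j + m' * t j)))).card : ℝ) ≤ (γ + 2 * ε) * (T : ℝ) ^ k := by
    intro t ht
    have h1 := shift_le T (fun j => b j + m' * t j) F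
    have h2 : ∑ j : Fin k, (b j + m' * t j).natAbs * T ^ k ≤ (k * (R + m' * T')) * T ^ k := by
      rw [← Finset.sum_mul]
      apply Nat.mul_le_mul_right
      have h3 : ∀ j ∈ (univ : Finset (Fin k)), (b j + m' * t j).natAbs ≤ R + m' * T' := by
        intro j _
        have h4 := hb j
        rw [mem_bx] at ht
        have h5 := ht j
        rw [mem_Ico] at h5
        have h6 : (m' : ℤ) * t j ≤ m' * T' := mul_le_mul_of_nonneg_left h5.2.le (by positivity)
        have h7 : 0 ≤ (m' : ℤ) * t j := mul_nonneg (by positivity) h5.1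
        rw [abs_le] at h4
        have h8 : ((m' * T' : ℕ) : ℤ) = (m' : ℤ) * T' := by push_cast; ring
        omega
      refine (Finset.sum_le_sum h3).trans ?_
      simp
    have h3 : (((bx k T).filter (fun y => F (fun j => y j + (b j + m' * t j)))).card : ℝ) * T ≤
        ((bx k T).filter F).card * T + (k * (R + m' * T')) * (T : ℝ) ^ k := by
      exact_mod_cast h1.trans (Nat.add_le_add_left h2 _)
    rw [← hcnt] at h3
    have h4 : (k * (R + m' * T')) * (T : ℝ) ^ k ≤ ε * T * (T : ℝ) ^ k :=
      mul_le_mul_of_nonneg_right hkT (by positivity)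
    have h5 : (cnt g c N T : ℝ) * T ≤ (γ + ε) * (T : ℝ) ^ k * T :=
      mul_le_mul_of_nonneg_right hup hT0.le
    have h6 : (((bx k T).filter (fun y => F (fun j => y j + (b j + m' * t j)))).card : ℝ) * T ≤
        (γ + 2 * ε) * (T : ℝ) ^ k * T := by
      calc _ ≤ _ := h3
        _ ≤ (γ + ε) * (T : ℝ) ^ k * T + ε * T * (T : ℝ) ^ k := add_le_add h5 h4
        _ = _ := by ring
    exact le_of_mul_le_mul_right h6 hT0
  -- the sum over the box
  have hsum : ∑ y ∈ bx k T, (cnt g (fun j => c j + N * (y j + b j)) (N * m') T' : ℝ) ≤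
      (T' : ℝ) ^ k * ((γ + 2 * ε) * (T : ℝ) ^ k) := by
    have h1 : ∑ y ∈ bx k T, (cnt g (fun j => c j + N * (y j + b j)) (N * m') T' : ℝ) =
        ∑ t ∈ bx k T', (((bx k T).filter (fun y => F (fun j => y j + (b j + m' * t j)))).card : ℝ) := by
      have h2 : ∀ y : Fin k → ℤ, (cnt g (fun j => c j + N * (y j + b j)) (N * m') T' : ℝ) =
          ∑ t ∈ bx k T', if F (fun j => y j + (b j + m' * t j)) then (1 : ℝ) else 0 := by
        intro y
        rw [hsub y, Finset.card_filter]
        push_cast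
        rfl
      have h3 : ∀ t : Fin k → ℤ,
          (((bx k T).filter (fun y => F (fun j => y j + (b j + m' * t j)))).card : ℝ) =
          ∑ y ∈ bx k T, if F (fun j => y j + (b j + m' * t j)) then (1 : ℝ) else 0 := by
        intro t
        rw [Finset.card_filter]
        push_cast
        rfl
      rw [Finset.sum_congr rfl fun y _ => h2 y, Finset.sum_congr rfl fun t _ => h3 t,
        Finset.sum_comm]
    rw [h1]
    refine (Finset.sum_le_sum hone).trans ?_
    rw [Finset.sum_const, nsmul_eq_mul, card_bx]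
    push_cast
    exact le_rfl
  -- the bad vectors
  obtain ⟨Bd, hBd⟩ : ∃ Bd : Finset (Fin k → ℤ), Bd = (bx k T).filter (fun y =>
      (γ + lam) * (T' : ℝ) ^ k < (cnt g (fun j => c j + N * (y j + b j)) (N * m') T' : ℝ)) :=
    ⟨_, rfl⟩
  have hgoal : (Bd.card : ℝ) ≤ 4 * ε / lam * (T : ℝ) ^ k := by
    have h1 : ∑ y ∈ Bd, lam * (T' : ℝ) ^ k ≤ ∑ y ∈ bx k T,
        ((cnt g (fun j => c j + N * (y j + b j)) (N * m') T' : ℝ) - (γ - ε) * (T' : ℝ) ^ k) := by
      have hsubs : Bd ⊆ bx k T := by rw [hBd]; exact filter_subset _ _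
      refine (Finset.sum_le_sum fun y hy => ?_).trans
        (Finset.sum_le_sum_of_subset_of_nonneg hsubs fun y _ _ => ?_)
      · rw [hBd, mem_filter] at hy
        have h2 := hy.2
        have h3 : 0 < ε * (T' : ℝ) ^ k := by positivity
        linarith
      · have h2 := hlow (fun j => y j + b j)
        linarith
    rw [Finset.sum_const, nsmul_eq_mul, Finset.sum_sub_distrib, Finset.sum_const, nsmul_eq_mul,
      card_bx] at h1
    push_cast at h1
    have h2 : (Bd.card : ℝ) * (lam * (T' : ℝ) ^ k) ≤ 3 * ε * (T : ℝ) ^ k * (T' : ℝ) ^ k := by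
      calc _ ≤ _ := h1
        _ ≤ (T' : ℝ) ^ k * ((γ + 2 * ε) * (T : ℝ) ^ k) -
            (T : ℝ) ^ k * ((γ - ε) * (T' : ℝ) ^ k) := by linarith
        _ = _ := by ring
    have h3 : (Bd.card : ℝ) * lam ≤ 3 * ε * (T : ℝ) ^ k := by
      have h4 : (Bd.card : ℝ) * lam * (T' : ℝ) ^ k ≤ 3 * ε * (T : ℝ) ^ k * (T' : ℝ) ^ k := by
        rw [mul_assoc]
        exact h2
      exact le_of_mul_le_mul_right h4 hT'0
    rw [div_mul_eq_mul_div, le_div_iff₀ hlam]
    have h5 : 0 ≤ ε * (T : ℝ) ^ k := by positivity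
    linarith
  rw [hBd] at hgoal
  unfold bx at hgoal
  convert hgoal

end Pool.Agent.N498.BXA
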