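import Mathlib
import Pool.Agent.N912.EL.Stm
import Pool.Agent.W699.EG.LsvD

/-! EL/3 (for helper912), part A: the kernel by characters of large conductor. -/

set_option autoImplicit false

namespace Pool.Agent.N498.EL

open Finset
open Pool.Agent.W78.EG
open Pool.Agent.W699.EG (mem_PQ th_nat th_nonneg th_ne th_le bad_sum bad_pairs orth)

variable {e : ℕ} {κ : DirichletCharacter ℂ e}

/-- character sums with weights -/
noncomputable def SW (u : ℕ → ℝ) (Q t : ℕ) {D : ℕ} (χ : DirichletCharacter ℂ D) : ℂ :=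
  ∑ m ∈ Ioc Q t, (u m : ℂ) * χ (m : ZMod D)

theorem SW_le {Q t D : ℕ} {u : ℕ → ℝ} (hu : ∀ m : ℕ, |u m| ≤ th κ Q (m : ℤ))
    (χ : DirichletCharacter ℂ D) : ‖SW u Q t χ‖ ≤ ∑ m ∈ Ioc Q t, th κ Q (m : ℤ) := by
  unfold SW
  refine (norm_sum_le _ _).trans (sum_le_sum fun m _ => ?_)
  rw [norm_mul, Complex.norm_real, Real.norm_eq_abs]
  calc |u m| * ‖χ (m : ZMod D)‖ ≤ th κ Q (m : ℤ) * 1 :=
        mul_le_mul (hu m) (χ.norm_le_one _) (norm_nonneg _) (th_nonneg κ Q m)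
    _ = _ := mul_one _

theorem sum_th_le (κ : DirichletCharacter ℂ e) {Q t : ℕ} (hQ : 1 ≤ Q) (ht : t ≤ 2 * Q) :
    ∑ m ∈ Ioc Q t, th κ Q (m : ℤ) ≤ Q * Real.log (2 * Q) := by
  have hQ1 : (1 : ℝ) ≤ Q := by exact_mod_cast hQ
  have hL : 0 ≤ Real.log (2 * Q) := Real.log_nonneg (by linarith)
  refine (sum_le_sum fun m _ => th_le κ hQ m).trans ?_
  rw [sum_const, nsmul_eq_mul, Nat.card_Ioc]
  apply mul_le_mul_of_nonneg_right _ hL
  exact_mod_cast (by omega : t - Q ≤ Q)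

theorem SW_changeLevel {u : ℕ → ℝ} {Q D C₀ f : ℕ} (hu : ∀ m : ℕ, |u m| ≤ th κ Q (m : ℤ))
    (hQ : 1 ≤ Q) (hC : C₀ ≤ Q) (hD : 1 ≤ D)
    (hDQ : D ≤ C₀ * Q) (t : ℕ) (hf : f ∣ D) (ψ : DirichletCharacter ℂ f) :
    ‖SW u Q t (DirichletCharacter.changeLevel hf ψ)‖ ≤ ‖SW u Q t ψ‖ + Real.log (2 * Q) := by
  have h1 : ‖SW u Q t ψ - SW u Q t (DirichletCharacter.changeLevel hf ψ)‖ ≤ Real.log (2 * Q) := by
    refine le_trans ?_ (bad_sum κ hQ hC hD hDQ t)
    unfold SW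
    rw [← sum_sub_distrib, sum_filter]
    refine (norm_sum_le _ _).trans (sum_le_sum fun m _ => ?_)
    by_cases hm : m.Coprime D
    · have h2 := DirichletCharacter.changeLevel_eq_cast_of_dvd' ψ hf (a := (m : ℤ))
        (by exact_mod_cast Nat.isCoprime_iff_coprime.mpr hm)
      push_cast at h2
      rw [h2, sub_self, norm_zero, if_neg (not_not.2 hm)]
    · rw [if_pos hm, MulChar.map_nonunit (DirichletCharacter.changeLevel hf ψ)
        (fun hu => hm ((ZMod.isUnit_iff_coprime m D).mp hu)), mul_zero, sub_zero, norm_mul,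
        Complex.norm_real, Real.norm_eq_abs]
      calc |u m| * ‖ψ (m : ZMod f)‖ ≤ th κ Q (m : ℤ) * 1 :=
            mul_le_mul (hu m) (ψ.norm_le_one _) (norm_nonneg _) (th_nonneg κ Q m)
        _ = _ := mul_one _
  have h3 := norm_sub_norm_le (SW u Q t (DirichletCharacter.changeLevel hf ψ)) (SW u Q t ψ)
  rw [norm_sub_rev] at h3
  linarith

theorem norm_SW_inv (u : ℕ → ℝ) (Q t : ℕ) {D : ℕ} [NeZero D] (χ : DirichletCharacter ℂ D) :
    ‖SW u Q t χ⁻¹‖ = ‖SW u Q t χ‖ := by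
  have h : SW u Q t χ⁻¹ = (starRingEnd ℂ) (SW u Q t χ) := by
    unfold SW
    rw [map_sum]
    refine sum_congr rfl fun m _ => ?_
    rw [map_mul, Complex.conj_ofReal]
    congr 1
    exact (MulChar.star_apply' χ _).symm
  rw [h, RCLike.norm_conj]

open scoped Classical in
/-- the characters mod `D` whose conductor does not divide `M` -/
noncomputable def Om (M D : ℕ) : Finset (DirichletCharacter ℂ D) :=
  univ.filter (fun χ => ¬ χ.conductor ∣ M)

theorem mem_Om {M D : ℕ} {χ : DirichletCharacter ℂ D} : χ ∈ Om M D ↔ ¬ χ.conductor ∣ M := by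
  unfold Om
  rw [mem_filter]
  exact ⟨fun h => h.2, fun h => ⟨mem_univ _, h⟩⟩

theorem sum_all {M D : ℕ} [NeZero D] (F : DirichletCharacter ℂ D → ℂ) :
    ∑ χ : DirichletCharacter ℂ D, F χ = ∑ χ ∈ Om M D, F χ +
      ∑ ψ : DirichletCharacter ℂ (Nat.gcd D M),
        F (DirichletCharacter.changeLevel (Nat.gcd_dvd_left D M) ψ) := by
  classical
  have hg0 : Nat.gcd D M ≠ 0 := fun h => NeZero.ne D (Nat.gcd_eq_zero_iff.1 h).1
  have : NeZero (Nat.gcd D M) := ⟨hg0⟩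
  have h1 : (univ : Finset (DirichletCharacter ℂ (Nat.gcd D M))).image
      (DirichletCharacter.changeLevel (Nat.gcd_dvd_left D M)) =
      (univ : Finset (DirichletCharacter ℂ D)).filter (fun χ => χ.conductor ∣ M) := by
    ext χ
    rw [mem_image, mem_filter]
    constructor
    · rintro ⟨ψ, _, rfl⟩
      refine ⟨mem_univ _, ?_⟩
      rw [DirichletCharacter.conductor_changeLevel ψ (Nat.gcd_dvd_left D M)]
      exact ψ.conductor_dvd_level.trans (Nat.gcd_dvd_right D M)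
    · rintro ⟨_, h⟩
      have hg : χ.conductor ∣ Nat.gcd D M := Nat.dvd_gcd χ.conductor_dvd_level h
      refine ⟨DirichletCharacter.changeLevel hg χ.primitiveCharacter, mem_univ _, ?_⟩
      rw [← DirichletCharacter.changeLevel_trans]
      exact χ.changeLevel_primitiveCharacter
  rw [← sum_image (f := F) (g := DirichletCharacter.changeLevel (Nat.gcd_dvd_left D M))
    (s := (univ : Finset (DirichletCharacter ℂ (Nat.gcd D M))))
    (fun x _ y _ hxy => DirichletCharacter.changeLevel_injective (Nat.gcd_dvd_left D M) hxy), h1]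
  unfold Om
  rw [← sum_filter_add_sum_filter_not univ (fun χ : DirichletCharacter ℂ D => ¬ χ.conductor ∣ M) F]
  congr 1
  refine sum_congr ?_ fun _ _ => rfl
  ext χ
  simp

theorem chL {D f : ℕ} (ψ : DirichletCharacter ℂ f) (h : f ∣ D) {m : ℕ} (hm : m.Coprime D) :
    DirichletCharacter.changeLevel h ψ (m : ZMod D) = ψ (m : ZMod f) := by
  have h2 := DirichletCharacter.changeLevel_eq_cast_of_dvd' ψ h (a := (m : ℤ))
    (by exact_mod_cast Nat.isCoprime_iff_coprime.mpr hm)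
  push_cast at h2
  rw [h2]

/-- the kernel -/
noncomputable def kr (M D b m₁ m₂ : ℕ) : ℝ := (if m₂ ≡ b * m₁ [MOD D] then (1 : ℝ) else 0) -
      (Nat.totient (Nat.gcd D M) : ℝ) / (Nat.totient D : ℝ) *
        (if m₂ ≡ b * m₁ [MOD Nat.gcd D M] then (1 : ℝ) else 0)

theorem orthN {D b m₁ m₂ : ℕ} [NeZero D] (hb : b.Coprime D) (h1 : m₁.Coprime D) :
    ∑ χ : DirichletCharacter ℂ D, χ (b : ZMod D) * (χ (m₁ : ZMod D) * χ⁻¹ (m₂ : ZMod D)) =
      if m₂ ≡ b * m₁ [MOD D] then (Nat.totient D : ℂ) else 0 := by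
  have hmu : IsUnit ((b : ZMod D) * (m₁ : ZMod D)) :=
    ((ZMod.isUnit_iff_coprime b D).mpr hb).mul ((ZMod.isUnit_iff_coprime m₁ D).mpr h1)
  have h2 := orth (m₂ : ZMod D) ((b : ZMod D) * (m₁ : ZMod D)) hmu
  have h4 : (m₂ ≡ b * m₁ [MOD D]) ↔ (m₂ : ZMod D) = (b : ZMod D) * (m₁ : ZMod D) := by
    rw [← ZMod.natCast_eq_natCast_iff]
    push_cast
    rfl
  simp only [h4]
  rw [← h2]
  refine sum_congr rfl fun χ _ => ?_
  rw [map_mul]
  ring

theorem kr_eq {M D b m₁ m₂ : ℕ} [NeZero D] (hb : b.Coprime D) (h1 : m₁.Coprime D)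
    (h2 : m₂.Coprime D) : (kr M D b m₁ m₂ : ℂ) = 1 / (Nat.totient D : ℂ) *
      ∑ χ ∈ Om M D, χ (b : ZMod D) * (χ (m₁ : ZMod D) * χ⁻¹ (m₂ : ZMod D)) := by
  have hg0 : Nat.gcd D M ≠ 0 := fun h => NeZero.ne D (Nat.gcd_eq_zero_iff.1 h).1
  have : NeZero (Nat.gcd D M) := ⟨hg0⟩
  have hgD := Nat.gcd_dvd_left D M
  have h0 : (Nat.totient D : ℂ) ≠ 0 := by
    have := Nat.totient_pos.mpr (NeZero.pos D)
    exact_mod_cast this.ne'
  have e1 := orthN (D := D) (m₂ := m₂) hb h1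
  have e2 := orthN (D := Nat.gcd D M) (m₂ := m₂) (hb.coprime_dvd_right hgD)
    (h1.coprime_dvd_right hgD)
  rw [sum_all (M := M)] at e1
  have e3 : ∑ ψ : DirichletCharacter ℂ (Nat.gcd D M),
      DirichletCharacter.changeLevel hgD ψ (b : ZMod D) *
        (DirichletCharacter.changeLevel hgD ψ (m₁ : ZMod D) *
          (DirichletCharacter.changeLevel hgD ψ)⁻¹ (m₂ : ZMod D)) =
      ∑ ψ : DirichletCharacter ℂ (Nat.gcd D M), ψ (b : ZMod (Nat.gcd D M)) *
        (ψ (m₁ : ZMod (Nat.gcd D M)) * ψ⁻¹ (m₂ : ZMod (Nat.gcd D M))) := by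
    refine sum_congr rfl fun ψ _ => ?_
    rw [MulChar.inv_apply_eq_inv', MulChar.inv_apply_eq_inv', chL ψ hgD hb, chL ψ hgD h1,
      chL ψ hgD h2]
  rw [e3, e2] at e1
  have e4 := eq_sub_of_add_eq e1
  rw [e4]
  unfold kr
  split_ifs <;> push_cast <;> field_simp <;> simp

end Pool.Agent.N498.EL
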