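import Mathlib
import Pool.Agent.N498.ELlsaB

/-! EL/3 (for helper912), part C: reduction to primitive characters. -/

set_option autoImplicit false

namespace Pool.Agent.N498.EL

open Finset
open Pool.Agent.W78.EG
open Pool.Agent.W699.EG (mem_PQ th_nat th_nonneg th_ne th_le bad_sum bad_pairs orth)

variable {e : ℕ} {κ : DirichletCharacter ℂ e}

open scoped Classical in
/-- sums over primitive characters -/
noncomputable def PP (f : ℕ) (g : DirichletCharacter ℂ f → ℝ) : ℝ :=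
  ∑ ψ ∈ (univ : Finset (DirichletCharacter ℂ f)).filter (fun χ => χ.IsPrimitive), g ψ

theorem PP_mul (f : ℕ) (g : DirichletCharacter ℂ f → ℝ) (c : ℝ) :
    PP f (fun ψ => c * g ψ) = c * PP f g := by
  unfold PP
  rw [mul_sum]

theorem PP_nonneg (f : ℕ) (g : DirichletCharacter ℂ f → ℝ) (h : ∀ ψ, 0 ≤ g ψ) : 0 ≤ PP f g :=
  sum_nonneg fun ψ _ => h ψ

theorem PP_le (f : ℕ) {g g' : DirichletCharacter ℂ f → ℝ} (h : ∀ ψ, g ψ ≤ g' ψ) :
    PP f g ≤ PP f g' := sum_le_sum fun ψ _ => h ψ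

theorem PP_add (f : ℕ) (g g' : DirichletCharacter ℂ f → ℝ) :
    PP f (fun ψ => g ψ + g' ψ) = PP f g + PP f g' := by
  unfold PP
  rw [sum_add_distrib]

theorem prim_sum (M D : ℕ) [NeZero D] (w : DirichletCharacter ℂ D → ℝ) (hw : ∀ χ, 0 ≤ w χ)
    (W : (f : ℕ) → DirichletCharacter ℂ f → ℝ)
    (hW : ∀ f (h : f ∣ D) (ψ : DirichletCharacter ℂ f),
      w (DirichletCharacter.changeLevel h ψ) ≤ W f ψ) :
    ∑ χ ∈ Om M D, w χ ≤
      ∑ f ∈ D.divisors.filter (fun f => ¬ f ∣ M), PP f (W f) := by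
  classical
  have h1 : ∀ χ ∈ Om M D,
      χ.conductor ∈ D.divisors.filter (fun f => ¬ f ∣ M) := by
    intro χ hχ
    rw [mem_Om] at hχ
    rw [mem_filter]
    exact ⟨Nat.mem_divisors.mpr ⟨χ.conductor_dvd_level, NeZero.ne D⟩, hχ⟩
  rw [← sum_fiberwise_of_maps_to h1]
  apply sum_le_sum
  intro f hf
  unfold PP
  rw [mem_filter, Nat.mem_divisors] at hf
  have hfm := hf.1.1
  have h2 : ((Om M D).filter
      (fun χ => χ.conductor = f)) ⊆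
      ((univ : Finset (DirichletCharacter ℂ f)).filter (fun χ => χ.IsPrimitive)).image
        (DirichletCharacter.changeLevel hfm) := by
    intro χ hχ
    rw [mem_filter] at hχ
    obtain ⟨hO, hc⟩ := hχ
    subst hc
    rw [mem_image]
    refine ⟨χ.primitiveCharacter, ?_, χ.changeLevel_primitiveCharacter⟩
    rw [mem_filter]
    exact ⟨mem_univ _, χ.primitiveCharacter_isPrimitive⟩
  calc _ ≤ ∑ χ ∈ ((univ : Finset (DirichletCharacter ℂ f)).filter (fun χ => χ.IsPrimitive)).image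
        (DirichletCharacter.changeLevel hfm), w χ :=
        sum_le_sum_of_subset_of_nonneg h2 fun χ _ _ => hw χ
    _ = ∑ ψ ∈ (univ : Finset (DirichletCharacter ℂ f)).filter (fun χ => χ.IsPrimitive),
        w (DirichletCharacter.changeLevel hfm ψ) := by
        rw [sum_image]
        intro x _ y _ hxy
        exact DirichletCharacter.changeLevel_injective hfm hxy
    _ ≤ ∑ ψ ∈ (univ : Finset (DirichletCharacter ℂ f)).filter (fun χ => χ.IsPrimitive), W f ψ :=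
        sum_le_sum fun ψ _ => hW f hfm ψ
    _ = _ := by
        refine sum_congr ?_ fun _ _ => rfl
        ext; simp

/-- sums over `D` and its divisors -/
theorem swap_sum (N M : ℕ) (P : ℕ → ℝ) (hP : ∀ f, 0 ≤ P f) :
    ∑ D ∈ Icc 1 N, ∑ f ∈ D.divisors.filter (fun f => ¬ f ∣ M), P f ≤
      ∑ f ∈ (Icc 1 N).filter (fun f => ¬ f ∣ M), (N : ℝ) / f * P f := by
  have h1 : ∑ D ∈ Icc 1 N, ∑ f ∈ D.divisors.filter (fun f => ¬ f ∣ M), P f =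
      ∑ f ∈ (Icc 1 N).filter (fun f => ¬ f ∣ M), ∑ D ∈ (Icc 1 N).filter (fun D => f ∣ D), P f := by
    refine sum_comm' fun D f => ?_
    simp only [mem_Icc, mem_filter, Nat.mem_divisors]
    constructor
    · rintro ⟨⟨h2, h3⟩, ⟨h4, h5⟩, h6⟩
      have h7 : f ≤ D := Nat.le_of_dvd (by omega) h4
      have h8 : 0 < f := Nat.pos_of_dvd_of_pos h4 (by omega)
      exact ⟨⟨⟨h2, h3⟩, h4⟩, ⟨by omega, by omega⟩, h6⟩
    · rintro ⟨⟨⟨h2, h3⟩, h4⟩, ⟨h5, h5'⟩, h6⟩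
      exact ⟨⟨h2, h3⟩, ⟨h4, by omega⟩, h6⟩
  rw [h1]
  refine sum_le_sum fun f hf => ?_
  rw [mem_filter, mem_Icc] at hf
  rw [sum_const, nsmul_eq_mul]
  apply mul_le_mul_of_nonneg_right _ (hP f)
  have h2 : Icc 1 N = Ioc 0 N := by
    ext x
    rw [mem_Icc, mem_Ioc]
    omega
  rw [h2, Nat.Ioc_filter_dvd_card_eq_div]
  exact Nat.cast_div_le

/-- the primitive characters -/
noncomputable def P22 (u : ℕ → ℝ) (Q t s f : ℕ) : ℝ :=
  PP f (fun ψ => ‖SW u Q t ψ‖ ^ 2 * ‖SW u Q s ψ‖ ^ 2)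

theorem P22_nonneg (u : ℕ → ℝ) (Q t s f : ℕ) : 0 ≤ P22 u Q t s f :=
  PP_nonneg f _ fun _ => by positivity

theorem b22_le {u : ℕ → ℝ} {M Q D C₀ : ℕ} (hu : ∀ m : ℕ, |u m| ≤ th κ Q (m : ℤ))
    (hQ : 1 ≤ Q) (hC : C₀ ≤ Q) (hD : 1 ≤ D) (hDQ : D ≤ C₀ * Q) {t s : ℕ}
    (ht : t ≤ 2 * Q) (hs : s ≤ 2 * Q) :
    b22 u M Q t s D ≤ 4 * ∑ f ∈ D.divisors.filter (fun f => ¬ f ∣ M), P22 u Q t s f +
      12 * (Q : ℝ) ^ 2 * Real.log (2 * Q) ^ 4 * Nat.totient D := by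
  have : NeZero D := ⟨by omega⟩
  set L := Real.log (2 * Q) with hL
  have hQ1 : (1 : ℝ) ≤ Q := by exact_mod_cast hQ
  have hL0 : 0 ≤ L := Real.log_nonneg (by linarith)
  set E : ℝ := 12 * (Q : ℝ) ^ 2 * L ^ 4 with hE
  have hE0 : 0 ≤ E := by positivity
  have h1 := prim_sum M D (fun χ => max 0 (‖SW u Q t χ‖ ^ 2 * ‖SW u Q s χ‖ ^ 2 - E))
    (fun χ => le_max_left _ _)
    (fun f ψ => 4 * (‖SW u Q t ψ‖ ^ 2 * ‖SW u Q s ψ‖ ^ 2)) (by
      intro f h ψ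
      apply max_le (by positivity)
      have h2 := SW_changeLevel hu hQ hC hD hDQ t h ψ
      have h2' := SW_changeLevel hu hQ hC hD hDQ s h ψ
      have h3 := (SW_le hu ψ).trans (sum_th_le κ hQ ht)
      have h3' := (SW_le hu ψ).trans (sum_th_le κ hQ hs)
      rw [← hL] at h2 h2' h3 h3'
      set p := ‖SW u Q t ψ‖ with hp
      set q := ‖SW u Q s ψ‖ with hq
      have hp0 : 0 ≤ p := norm_nonneg _
      have hq0 : 0 ≤ q := norm_nonneg _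
      have h4 : ‖SW u Q t (DirichletCharacter.changeLevel h ψ)‖ ^ 2 ≤ (p + L) ^ 2 :=
        pow_le_pow_left₀ (norm_nonneg _) h2 2
      have h4' : ‖SW u Q s (DirichletCharacter.changeLevel h ψ)‖ ^ 2 ≤ (q + L) ^ 2 :=
        pow_le_pow_left₀ (norm_nonneg _) h2' 2
      have h5 : (p + L) ^ 2 ≤ 2 * (p ^ 2 + L ^ 2) := by nlinarith [sq_nonneg (p - L)]
      have h5' : (q + L) ^ 2 ≤ 2 * (q ^ 2 + L ^ 2) := by nlinarith [sq_nonneg (q - L)]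
      have h6 : ‖SW u Q t (DirichletCharacter.changeLevel h ψ)‖ ^ 2 *
          ‖SW u Q s (DirichletCharacter.changeLevel h ψ)‖ ^ 2 ≤
          (2 * (p ^ 2 + L ^ 2)) * (2 * (q ^ 2 + L ^ 2)) :=
        mul_le_mul (h4.trans h5) (h4'.trans h5') (by positivity) (by positivity)
      have h7 : p ^ 2 ≤ (Q * L) ^ 2 := pow_le_pow_left₀ hp0 h3 2
      have h7' : q ^ 2 ≤ (Q * L) ^ 2 := pow_le_pow_left₀ hq0 h3' 2
      have hL2 : 0 ≤ L ^ 2 := by positivity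
      have h8 : L ^ 2 * p ^ 2 ≤ L ^ 2 * (Q * L) ^ 2 := mul_le_mul_of_nonneg_left h7 hL2
      have h8' : L ^ 2 * q ^ 2 ≤ L ^ 2 * (Q * L) ^ 2 := mul_le_mul_of_nonneg_left h7' hL2
      have h9 : L ^ 4 ≤ (Q : ℝ) ^ 2 * L ^ 4 := by
        have : (1 : ℝ) ≤ (Q : ℝ) ^ 2 := one_le_pow₀ hQ1
        have hL4 : 0 ≤ L ^ 4 := by positivity
        nlinarith
      have h10 : (2 * (p ^ 2 + L ^ 2)) * (2 * (q ^ 2 + L ^ 2)) =
        4 * (p ^ 2 * q ^ 2) + 4 * (L ^ 2 * p ^ 2) + 4 * (L ^ 2 * q ^ 2) + 4 * L ^ 4 := by ring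
      have h11 : L ^ 2 * (Q * L) ^ 2 = (Q : ℝ) ^ 2 * L ^ 4 := by ring
      rw [h10] at h6
      rw [h11] at h8 h8'
      have h12 : E = 12 * ((Q : ℝ) ^ 2 * L ^ 4) := by rw [hE]; ring
      rw [h12]
      linarith)
  have h6 : b22 u M Q t s D ≤
      ∑ χ ∈ Om M D, (max 0 (‖SW u Q t χ‖ ^ 2 * ‖SW u Q s χ‖ ^ 2 - E) + E) := by
    unfold b22
    refine sum_le_sum fun χ _ => ?_
    have := le_max_right 0 (‖SW u Q t χ‖ ^ 2 * ‖SW u Q s χ‖ ^ 2 - E)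
    linarith
  rw [sum_add_distrib, sum_const, nsmul_eq_mul] at h6
  have h7 := Pool.Agent.W333.EC.card_char D (Om M D)
  have h8 : ((Om M D).card : ℝ) * E ≤ Nat.totient D * E :=
    mul_le_mul_of_nonneg_right h7 hE0
  have h9 : ∑ f ∈ D.divisors.filter (fun f => ¬ f ∣ M),
      PP f (fun ψ => 4 * (‖SW u Q t ψ‖ ^ 2 * ‖SW u Q s ψ‖ ^ 2)) =
      4 * ∑ f ∈ D.divisors.filter (fun f => ¬ f ∣ M), P22 u Q t s f := by
    rw [mul_sum]
    refine sum_congr rfl fun f _ => ?_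
    unfold P22
    rw [PP_mul]
  rw [h9] at h1
  linarith

theorem b22_sum {u : ℕ → ℝ} {M Q C₀ : ℕ} (hu : ∀ m : ℕ, |u m| ≤ th κ Q (m : ℤ))
    (hQ : 1 ≤ Q) (hC : C₀ ≤ Q) {t s : ℕ} (ht : t ≤ 2 * Q) (hs : s ≤ 2 * Q) :
    ∑ D ∈ Icc 1 (C₀ * Q), b22 u M Q t s D ≤
      4 * ∑ f ∈ (Icc 1 (C₀ * Q)).filter (fun f => ¬ f ∣ M),
        ((C₀ * Q : ℕ) : ℝ) / f * P22 u Q t s f +
      12 * (C₀ : ℝ) ^ 2 * (Q : ℝ) ^ 4 * Real.log (2 * Q) ^ 4 := by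
  have hQ1 : (1 : ℝ) ≤ Q := by exact_mod_cast hQ
  have h1 : ∀ D ∈ Icc 1 (C₀ * Q), b22 u M Q t s D ≤
      4 * ∑ f ∈ D.divisors.filter (fun f => ¬ f ∣ M), P22 u Q t s f +
        12 * (Q : ℝ) ^ 2 * Real.log (2 * Q) ^ 4 * (C₀ * Q) := by
    intro D hD
    rw [mem_Icc] at hD
    have h2 := b22_le (M := M) hu hQ hC hD.1 hD.2 ht hs
    have h3 : (Nat.totient D : ℝ) ≤ C₀ * Q := by exact_mod_cast (Nat.totient_le D).trans hD.2
    have h4 := mul_le_mul_of_nonneg_left h3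
      (by positivity : 0 ≤ 12 * (Q : ℝ) ^ 2 * Real.log (2 * Q) ^ 4)
    linarith
  refine (sum_le_sum h1).trans ?_
  rw [sum_add_distrib, sum_const, nsmul_eq_mul, Nat.card_Icc, Nat.add_sub_cancel, ← mul_sum]
  have h2 := swap_sum (C₀ * Q) M (P22 u Q t s) (P22_nonneg u Q t s)
  have h3 : ((C₀ * Q : ℕ) : ℝ) * (12 * (Q : ℝ) ^ 2 * Real.log (2 * Q) ^ 4 * (C₀ * Q)) =
      12 * (C₀ : ℝ) ^ 2 * (Q : ℝ) ^ 4 * Real.log (2 * Q) ^ 4 := by push_cast; ring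
  rw [h3]
  linarith

end Pool.Agent.N498.EL
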