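import Pool.Agent.N657.QL.Stm

/-!
Project QL (helper657), task TPS: trigonometric polynomials are linear combinations of plane waves.
-/

namespace Pool.Agent.N498.QL_TPS

open Pool.Agent.N657.QL

section

variable {V : Type} [Fintype V] [DecidableEq V]

/-- `η · θ` -/
noncomputable def dt (η : V → ℤ) (θ : V → ℝ) : ℝ := ∑ x, (η x : ℝ) * θ x

/-- cosine waves -/
noncomputable def cw (η : V → ℤ) (θ : V → ℝ) : ℝ := Real.cos (dt η θ)

/-- sine waves -/
noncomputable def sw (η : V → ℤ) (θ : V → ℝ) : ℝ := Real.sin (dt η θ)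

lemma dt_add (η ζ : V → ℤ) (θ : V → ℝ) : dt (η + ζ) θ = dt η θ + dt ζ θ := by
  unfold dt
  rw [← Finset.sum_add_distrib]
  refine Finset.sum_congr rfl fun x _ => ?_
  rw [Pi.add_apply]
  push_cast
  ring

lemma dt_sub (η ζ : V → ℤ) (θ : V → ℝ) : dt (η - ζ) θ = dt η θ - dt ζ θ := by
  unfold dt
  rw [← Finset.sum_sub_distrib]
  refine Finset.sum_congr rfl fun x _ => ?_
  rw [Pi.sub_apply]
  push_cast
  ring

lemma dt_single (x : V) (θ : V → ℝ) : dt (Pi.single x 1) θ = θ x := by
  unfold dt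
  rw [Finset.sum_eq_single x]
  · simp
  · intro y _ hy
    rw [Pi.single_eq_of_ne hy]
    simp
  · intro h; exact absurd (Finset.mem_univ x) h

/-- the generators -/
def gens (V : Type) [Fintype V] : Set ((V → ℝ) → ℝ) := {f | ∃ η : V → ℤ, f = cw η ∨ f = sw η}

/-- the span of the plane waves -/
noncomputable def W (V : Type) [Fintype V] : Submodule ℝ ((V → ℝ) → ℝ) :=
  Submodule.span ℝ (gens V)

lemma cw_mem (η : V → ℤ) : cw η ∈ W V := Submodule.subset_span ⟨η, Or.inl rfl⟩

lemma sw_mem (η : V → ℤ) : sw η ∈ W V := Submodule.subset_span ⟨η, Or.inr rfl⟩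

lemma gens_mul {f g : (V → ℝ) → ℝ} (hf : f ∈ gens V) (hg : g ∈ gens V) : f * g ∈ W V := by
  obtain ⟨η, hη⟩ := hf
  obtain ⟨ζ, hζ⟩ := hg
  rcases hη with rfl | rfl <;> rcases hζ with rfl | rfl
  · have h : cw η * cw ζ = (1 / 2 : ℝ) • (cw (η + ζ) + cw (η - ζ)) := by
      funext θ
      simp only [Pi.mul_apply, Pi.smul_apply, Pi.add_apply, smul_eq_mul, cw, dt_add, dt_sub,
        Real.cos_add, Real.cos_sub]
      ring
    rw [h]
    exact (W V).smul_mem _ ((W V).add_mem (cw_mem _) (cw_mem _))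
  · have h : cw η * sw ζ = (1 / 2 : ℝ) • (sw (η + ζ) - sw (η - ζ)) := by
      funext θ
      simp only [Pi.mul_apply, Pi.smul_apply, Pi.sub_apply, smul_eq_mul, cw, sw, dt_add, dt_sub,
        Real.sin_add, Real.sin_sub]
      ring
    rw [h]
    exact (W V).smul_mem _ ((W V).sub_mem (sw_mem _) (sw_mem _))
  · have h : sw η * cw ζ = (1 / 2 : ℝ) • (sw (η + ζ) + sw (η - ζ)) := by
      funext θ
      simp only [Pi.mul_apply, Pi.smul_apply, Pi.add_apply, smul_eq_mul, cw, sw, dt_add, dt_sub,
        Real.sin_add, Real.sin_sub]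
      ring
    rw [h]
    exact (W V).smul_mem _ ((W V).add_mem (sw_mem _) (sw_mem _))
  · have h : sw η * sw ζ = (1 / 2 : ℝ) • (cw (η - ζ) - cw (η + ζ)) := by
      funext θ
      simp only [Pi.mul_apply, Pi.smul_apply, Pi.sub_apply, smul_eq_mul, cw, sw, dt_add, dt_sub,
        Real.cos_add, Real.cos_sub]
      ring
    rw [h]
    exact (W V).smul_mem _ ((W V).sub_mem (cw_mem _) (cw_mem _))

lemma mul_gen {f g : (V → ℝ) → ℝ} (hf : f ∈ W V) (hg : g ∈ gens V) : f * g ∈ W V := by
  unfold W at hf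
  induction hf using Submodule.span_induction with
  | mem f hf => exact gens_mul hf hg
  | zero => rw [zero_mul]; exact (W V).zero_mem
  | add f f' _ _ h h' => rw [add_mul]; exact (W V).add_mem h h'
  | smul c f _ h => rw [smul_mul_assoc]; exact (W V).smul_mem c h

lemma mul_mem_W {f g : (V → ℝ) → ℝ} (hf : f ∈ W V) (hg : g ∈ W V) : f * g ∈ W V := by
  unfold W at hg
  induction hg using Submodule.span_induction with
  | mem g hg => exact mul_gen hf hg
  | zero => rw [mul_zero]; exact (W V).zero_mem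
  | add g g' _ _ h h' => rw [mul_add]; exact (W V).add_mem h h'
  | smul c g _ h => rw [mul_smul_comm]; exact (W V).smul_mem c h

lemma TP_le {R : (V → ℝ) → ℝ} (hR : R ∈ TP V) : R ∈ W V := by
  unfold TP at hR
  induction hR using Algebra.adjoin_induction with
  | mem R hR =>
    obtain ⟨x, h | h⟩ := hR
    · have : R = cw (Pi.single x 1) := by
        funext θ
        rw [h, cw, dt_single]
      rw [this]
      exact cw_mem _
    · have : R = sw (Pi.single x 1) := by
        funext θ
        rw [h, sw, dt_single]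
      rw [this]
      exact sw_mem _
  | algebraMap r =>
    have : algebraMap ℝ ((V → ℝ) → ℝ) r = r • cw 0 := by
      funext θ
      simp [cw, dt]
    rw [this]
    exact (W V).smul_mem _ (cw_mem _)
  | add f g _ _ hf hg => exact (W V).add_mem hf hg
  | mul f g _ _ hf hg => exact mul_mem_W hf hg

lemma rep {R : (V → ℝ) → ℝ} (hR : R ∈ W V) : ∃ A B : (V → ℤ) →₀ ℝ, ∀ θ,
    R θ = A.sum (fun η a => a * cw η θ) + B.sum (fun η b => b * sw η θ) := by
  unfold W at hR
  induction hR using Submodule.span_induction with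
  | mem R hR =>
    obtain ⟨η, rfl | rfl⟩ := hR
    · refine ⟨Finsupp.single η 1, 0, fun θ => ?_⟩
      rw [Finsupp.sum_single_index (by ring), Finsupp.sum_zero_index]
      ring
    · refine ⟨0, Finsupp.single η 1, fun θ => ?_⟩
      rw [Finsupp.sum_single_index (by ring), Finsupp.sum_zero_index]
      ring
  | zero => exact ⟨0, 0, fun θ => by simp⟩
  | add f g _ _ hf hg =>
    obtain ⟨A, B, h⟩ := hf
    obtain ⟨A', B', h'⟩ := hg
    refine ⟨A + A', B + B', fun θ => ?_⟩
    rw [Pi.add_apply, h, h', Finsupp.sum_add_index' (fun _ => by ring) (fun _ _ _ => by ring),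
      Finsupp.sum_add_index' (fun _ => by ring) (fun _ _ _ => by ring)]
    ring
  | smul c f _ hf =>
    obtain ⟨A, B, h⟩ := hf
    refine ⟨c • A, c • B, fun θ => ?_⟩
    rw [Pi.smul_apply, h, Finsupp.sum_smul_index (fun _ => by ring),
      Finsupp.sum_smul_index (fun _ => by ring), smul_eq_mul, mul_add, Finsupp.mul_sum,
      Finsupp.mul_sum]
    congr 1 <;> exact Finset.sum_congr rfl fun η _ => by ring

end

/-- TPS -/
theorem main : S_TPS := by
  classical
  intro V _ _ R hR
  obtain ⟨A, B, h⟩ := rep (TP_le hR)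
  refine ⟨A.support ∪ B.support, A, B, fun θ => ?_⟩
  rw [h θ, Finsupp.sum_of_support_subset A (Finset.subset_union_left (s₂ := B.support)) _
      (fun _ _ => by ring),
    Finsupp.sum_of_support_subset B (Finset.subset_union_right (s₁ := A.support)) _
      (fun _ _ => by ring), ← Finset.sum_add_distrib]
  rfl

end Pool.Agent.N498.QL_TPS
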