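import Mathlib
import Pool.Agent.N657.QR.Stm

/-!
Project QR, task GD (helper498, for helper657): Gaussian domination for eigenfunctions of the
Laplace operator.
-/

set_option autoImplicit false

namespace Pool.Agent.N498.QRGD

open Filter Topology Pool.Agent.N657.QR

theorem pot_smul_one {V : Type} [Fintype V] [DecidableEq V] (U : ℝ) (n : V → ℤ) :
    pot (U • (1 : Matrix V V ℝ)) 0 n = U * Pool.Agent.N657.QR.sq n := by
  unfold pot Pool.Agent.N657.QR.sq
  rw [Finset.mul_sum]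
  refine Finset.sum_congr rfl fun x _ => ?_
  rw [Finset.sum_eq_single x]
  · rw [Matrix.smul_apply, Matrix.one_apply_eq]
    simp only [Pi.zero_apply, sub_zero, smul_eq_mul]
    ring
  · intro y _ hy
    rw [Matrix.smul_apply, Matrix.one_apply_ne (Ne.symm hy)]
    simp
  · intro h
    exact absurd (Finset.mem_univ x) h

theorem po_smul_one {V : Type} [Fintype V] [DecidableEq V] (U : ℝ) (ψ : (V → ℤ) → ℝ) :
    po (U • (1 : Matrix V V ℝ)) 0 ψ = U * ∑' n, Pool.Agent.N657.QR.sq n * ψ n ^ 2 := by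
  unfold po
  rw [← tsum_mul_left]
  refine tsum_congr fun n => ?_
  rw [pot_smul_one, mul_assoc]

section Torus

variable {d L : ℕ} [NeZero L]

theorem parts_i (f X : (Fin d → ZMod L) → ℝ) (e : Fin d → ZMod L) :
    ∑ x, (f x - f (x + e)) * (X x - X (x + e)) =
      ∑ x, X x * (2 * f x - f (x + e) - f (x - e)) := by
  have h1 : ∑ x, (f x - f (x + e)) * X (x + e) = ∑ x, (f (x - e) - f x) * X x := by
    rw [← Equiv.sum_comp (Equiv.subRight e) (fun x => (f x - f (x + e)) * X (x + e))]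
    refine Finset.sum_congr rfl fun x _ => ?_
    simp [Equiv.subRight_apply]
  have h2 : ∑ x, (f x - f (x + e)) * (X x - X (x + e)) =
      ∑ x, (f x - f (x + e)) * X x - ∑ x, (f x - f (x + e)) * X (x + e) := by
    rw [← Finset.sum_sub_distrib]
    exact Finset.sum_congr rfl fun x _ => by ring
  rw [h2, h1, ← Finset.sum_sub_distrib]
  exact Finset.sum_congr rfl fun x _ => by ring

theorem parts (f X : (Fin d → ZMod L) → ℝ) :
    ∑ x, ∑ i : Fin d, (f x - f (x + ee i)) * (X x - X (x + ee i)) = ∑ x, X x * lap f x := by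
  rw [Finset.sum_comm]
  simp only [parts_i]
  rw [Finset.sum_comm]
  refine Finset.sum_congr rfl fun x _ => ?_
  unfold lap
  rw [Finset.mul_sum]

theorem nnw_sum (J : ℝ) (c : (Fin d → ZMod L) → (Fin d → ZMod L) → ℝ) :
    ∑ x, ∑ y, nnw J x y * c x y = J * ∑ x, ∑ i : Fin d, c x (x + ee i) := by
  rw [Finset.mul_sum]
  refine Finset.sum_congr rfl fun x _ => ?_
  unfold nnw
  simp only [Finset.sum_mul]
  rw [Finset.sum_comm, Finset.mul_sum]
  refine Finset.sum_congr rfl fun i _ => ?_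
  rw [Finset.sum_eq_single (x + ee i)]
  · rw [if_pos rfl]
  · intro y _ hy
    rw [if_neg hy, zero_mul]
  · intro h
    exact absurd (Finset.mem_univ _) h

theorem GK_eq (U J l : ℝ) (f : (Fin d → ZMod L) → ℝ) (hf : ∀ x, lap f x = l * f x)
    (ψ : ((Fin d → ZMod L) → ℤ) → ℝ) :
    GK U J (fun x i => f x - f (x + ee i)) ψ =
      FF (U • (1 : Matrix (Fin d → ZMod L) (Fin d → ZMod L) ℝ)) (nnw J) 0 ψ
        - J * l * (∑ x, f x * xx x ψ) + J * l / 2 * (∑ x, f x ^ 2) * nr ψ := by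
  have h1 := parts f (fun x => xx x ψ)
  have h2 := parts f f
  simp only [hf] at h1 h2
  have h3 : ∑ x, ∑ i : Fin d, (f x - f (x + ee i)) ^ 2 = l * ∑ x, f x ^ 2 := by
    rw [Finset.mul_sum]
    calc ∑ x, ∑ i : Fin d, (f x - f (x + ee i)) ^ 2
        = ∑ x, ∑ i : Fin d, (f x - f (x + ee i)) * (f x - f (x + ee i)) :=
          Finset.sum_congr rfl fun x _ => Finset.sum_congr rfl fun i _ => by ring
      _ = ∑ x, f x * (l * f x) := h2
      _ = _ := Finset.sum_congr rfl fun x _ => by ring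
  have h4 : ∑ x, xx x ψ * (l * f x) = l * ∑ x, f x * xx x ψ := by
    rw [Finset.mul_sum]
    exact Finset.sum_congr rfl fun x _ => by ring
  rw [h4] at h1
  unfold GK FF
  rw [po_smul_one, nnw_sum, h1, h3]
  ring

end Torus

theorem main (_hB : S_BAS) (hA : S_APP) (hG : S_GD0) : S_GD := by
  intro d L _ U J l f hL hU hJ hf ψ hψ
  obtain ⟨g, hgs, -, hnr, -, hpo, hcr, hxx⟩ := hA ψ hψ
  have hFF : Tendsto (fun k => FF (U • (1 : Matrix (Fin d → ZMod L) (Fin d → ZMod L) ℝ)) (nnw J) 0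
      (g k)) atTop (𝓝 (FF (U • (1 : Matrix (Fin d → ZMod L) (Fin d → ZMod L) ℝ)) (nnw J) 0 ψ)) := by
    unfold FF
    refine (hpo _ _).sub ?_
    exact tendsto_finsetSum _ fun x _ => tendsto_finsetSum _ fun y _ => (hcr x y).const_mul _
  have hX : Tendsto (fun k => ∑ x, f x * xx x (g k)) atTop (𝓝 (∑ x, f x * xx x ψ)) :=
    tendsto_finsetSum _ fun x _ => (hxx x).const_mul _
  refine le_of_tendsto_of_tendsto' (hnr.const_mul _)
    ((hFF.sub (hX.const_mul (J * l))).add (hnr.const_mul (J * l / 2 * (∑ x, f x ^ 2)))) fun k => ?_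
  have h1 := hG d L U J (fun x i => f x - f (x + ee i)) hL hU hJ (g k) (hgs k)
  rwa [GK_eq U J l f hf] at h1

end Pool.Agent.N498.QRGD
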