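import Mathlib

set_option autoImplicit false

/-! An explicit isometry over a commutative ring with elements `t`, `u`, `t * u = 1`. -/

namespace Pool.Agent.N498.ZS

open Matrix

variable {R : Type*} [CommRing R]

/-- auxiliary -/
def PP (t u : R) : Matrix (Fin 4) (Fin 4) R :=
  !![71 + 70 * u - 36 * u ^ 2 - 20 * u ^ 3 - 70 * t - 36 * t ^ 2 + 20 * t ^ 3, -177 - 200 * u + 88 * u ^ 2 + 60 * u ^ 3 + 200 * t + 88 * t ^ 2 - 60 * t ^ 3, 240 + 330 * u - 120 * u ^ 2 - 100 * u ^ 3 - 330 * t - 120 * t ^ 2 + 100 * t ^ 3, 2 + 106 * u - 16 * u ^ 2 - 20 * u ^ 3 - 142 * t + 34 * t ^ 2 + 56 * t ^ 3 - 20 * t ^ 4;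
     104 - 100 * u - 50 * u ^ 2 + 100 * t - 50 * t ^ 2, -297 + 250 * u + 150 * u ^ 2 - 250 * t + 150 * t ^ 2, 500 - 350 * u - 250 * u ^ 2 + 350 * t - 250 * t ^ 2, 204 - 50 * u - 50 * u ^ 2 - 4 * t - 150 * t ^ 2 + 50 * t ^ 3;
     264 - 250 * u - 130 * u ^ 2 + 250 * t - 130 * t ^ 2, -784 + 620 * u + 390 * u ^ 2 - 620 * t + 390 * t ^ 2, 1301 - 860 * u - 650 * u ^ 2 + 860 * t - 650 * t ^ 2, 526 - 120 * u - 130 * u ^ 2 - 26 * t - 380 * t ^ 2 + 130 * t ^ 3;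
     -10 - 30 * u - 10 * u ^ 2 + 10 * t, 20 + 80 * u + 30 * u ^ 2 - 30 * t, -20 - 120 * u - 50 * u ^ 2 + 50 * t, 21 - 20 * u - 10 * u ^ 2 + 20 * t - 10 * t ^ 2]
/-- auxiliary -/
def PI (t u : R) : Matrix (Fin 4) (Fin 4) R :=
  !![503 + 490 * u - 250 * u ^ 2 - 490 * t - 250 * t ^ 2, 537 - 160 * u - 268 * u ^ 2 + 100 * u ^ 3 + 160 * t - 268 * t ^ 2 - 100 * t ^ 3, -20 - 20 * u + 10 * u ^ 2 + 20 * t + 10 * t ^ 2, -14 - 380 * u + 130 * u ^ 2 + 514 * t - 120 * t ^ 2 - 130 * t ^ 3;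
     -1504 - 1220 * u + 750 * u ^ 2 + 1220 * t + 750 * t ^ 2, -1409 + 550 * u + 704 * u ^ 2 - 300 * u ^ 3 - 550 * t + 704 * t ^ 2 + 300 * t ^ 3, 60 + 50 * u - 30 * u ^ 2 - 50 * t - 30 * t ^ 2, 164 + 1010 * u - 390 * u ^ 2 - 1404 * t + 230 * t ^ 2 + 390 * t ^ 3;
     -528 - 490 * u + 250 * u ^ 2 + 490 * t + 250 * t ^ 2, -544 + 170 * u + 268 * u ^ 2 - 100 * u ^ 3 - 170 * t + 268 * t ^ 2 + 100 * t ^ 3, 21 + 20 * u - 10 * u ^ 2 - 20 * t - 10 * t ^ 2, 26 + 380 * u - 130 * u ^ 2 - 526 * t + 120 * t ^ 2 + 130 * t ^ 3;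
     -2950 - 450 * u + 1250 * u ^ 2 - 1250 * t, -530 + 1550 * u + 540 * u ^ 2 - 500 * u ^ 3 - 1540 * t - 500 * t ^ 2, 120 + 20 * u - 50 * u ^ 2 + 50 * t, 1301 + 860 * u - 650 * u ^ 2 - 860 * t - 650 * t ^ 2]
/-- auxiliary -/
def NL (t u : R) : Matrix (Fin 4) (Fin 4) R :=
  !![25, 7 - 10 * u + 10 * t, 0, 0;
     7 + 10 * u - 10 * t, 10 - 4 * u ^ 2 - 4 * t ^ 2, 0, 0;
     0, 0, 0, -1 + t;
     0, 0, -1 + u, 0]
/-- auxiliary -/
def NQ (t u : R) : Matrix (Fin 4) (Fin 4) R :=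
  !![1, 0, 0, 0;
     0, 1, 0, 0;
     0, 0, 0, -1 + t;
     0, 0, -1 + u, 0]


theorem PI_mul_PP (t u : R) (h : t * u = 1) : PI t u * PP t u = 1 := by
  apply Matrix.ext
  intro i j
  fin_cases i <;> fin_cases j <;>
    simp only [PI, PP, Matrix.mul_apply, Fin.sum_univ_four, Matrix.of_apply, Matrix.cons_val,
      Matrix.one_apply, Fin.mk_zero, Fin.mk_one, Fin.isValue, Fin.reduceFinMk, Fin.reduceEq, if_true, if_false]
  · linear_combination (-86420 - 3600 * u + 19800 * u ^ 2 + 4660 * t + 43400 * t * u + 23700 * t ^ 2 + 1300 * t ^ 2 * u) * h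
  · linear_combination (233120 + 11000 * u - 54400 * u ^ 2 - 12980 * t - 120200 * t * u - 64800 * t ^ 2 - 3900 * t ^ 2 * u) * h
  · linear_combination (-363480 - 16100 * u + 84000 * u ^ 2 + 17800 * t + 187000 * t * u + 99600 * t ^ 2 + 6500 * t ^ 2 * u) * h
  · linear_combination (-99740 + 21012 * u + 9400 * u ^ 2 + 20360 * t + 48900 * t * u - 10000 * t * u ^ 2 + 29440 * t ^ 2 - 19800 * t ^ 2 * u + 5000 * t ^ 2 * u ^ 2 - 9800 * t ^ 3 + 5000 * t ^ 3 * u) * h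
  · linear_combination (239120 + 10620 * u - 54400 * u ^ 2 - 11280 * t - 118900 * t * u - 66100 * t ^ 2 - 3900 * t ^ 2 * u) * h
  · linear_combination (-640920 - 32460 * u + 148200 * u ^ 2 + 32140 * t + 326700 * t * u + 179400 * t ^ 2 + 11700 * t ^ 2 * u) * h
  · linear_combination (990680 + 47400 * u - 227000 * u ^ 2 - 43800 * t - 504500 * t * u - 273800 * t ^ 2 - 19500 * t ^ 2 * u) * h
  · linear_combination (255440 - 57816 * u - 23200 * u ^ 2 - 55380 * t - 125400 * t * u + 30000 * t * u ^ 2 - 72120 * t ^ 2 + 54400 * t ^ 2 * u - 15000 * t ^ 2 * u ^ 2 + 24400 * t ^ 3 - 15000 * t ^ 3 * u) * h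
  · linear_combination (88780 + 4220 * u - 19800 * u ^ 2 - 5160 * t - 43400 * t * u - 23700 * t ^ 2 - 1300 * t ^ 2 * u) * h
  · linear_combination (-239080 - 12860 * u + 54400 * u ^ 2 + 14480 * t + 120200 * t * u + 64800 * t ^ 2 + 3900 * t ^ 2 * u) * h
  · linear_combination (371920 + 19200 * u - 84000 * u ^ 2 - 20300 * t - 187000 * t * u - 99600 * t ^ 2 - 6500 * t ^ 2 * u) * h
  · linear_combination (100440 - 20392 * u - 9400 * u ^ 2 - 21860 * t - 48900 * t * u + 10000 * t * u ^ 2 - 28940 * t ^ 2 + 19800 * t ^ 2 * u - 5000 * t ^ 2 * u ^ 2 + 9800 * t ^ 3 - 5000 * t ^ 3 * u) * h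
  · linear_combination (245900 + 96600 * u - 25000 * u ^ 2 + 30600 * t - 34000 * t * u + 25000 * t * u ^ 2 - 9000 * t ^ 2 + 25000 * t ^ 2 * u) * h
  · linear_combination (-611500 - 256800 * u + 50000 * u ^ 2 - 51300 * t + 77000 * t * u - 75000 * t * u ^ 2 + 27000 * t ^ 2 - 75000 * t ^ 2 * u) * h
  · linear_combination (842900 + 371500 * u - 50000 * u ^ 2 + 31500 * t - 95000 * t * u + 125000 * t * u ^ 2 - 45000 * t ^ 2 + 125000 * t ^ 2 * u) * h
  · linear_combination (23580 - 17260 * u + 27000 * u ^ 2 - 135500 * t - 6500 * t * u + 75000 * t * u ^ 2 + 29900 * t ^ 2 + 90500 * t ^ 2 * u - 25000 * t ^ 2 * u ^ 2 + 9000 * t ^ 3 - 25000 * t ^ 3 * u) * h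

theorem NL_mul_PP (t u : R) (h : t * u = 1) : NL t u * PP t u = (PI u t)ᵀ * NQ t u := by
  apply Matrix.ext
  intro i j
  fin_cases i <;> fin_cases j <;>
    simp only [PI, PP, NL, NQ, Matrix.mul_apply, Fin.sum_univ_four, Matrix.of_apply, Matrix.cons_val,
      Matrix.transpose_apply, Fin.mk_zero, Fin.mk_one, Fin.isValue, Fin.reduceFinMk]
  · linear_combination (-2000 - 500 * u + 500 * t) * h
  · linear_combination (5000 + 1500 * u - 1500 * t) * h
  · linear_combination (-6550 - 2500 * u + 1250 * t) * h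
  · linear_combination (-950 - 750 * u + 1500 * t - 500 * t ^ 2) * h
  · linear_combination (-1000 - 40 * u + 200 * u ^ 2 + 40 * t + 400 * t * u + 200 * t ^ 2) * h
  · linear_combination (2800 + 120 * u - 600 * u ^ 2 - 120 * t - 1200 * t * u - 600 * t ^ 2) * h
  · linear_combination (-6150 - 200 * u + 1000 * u ^ 2 - 340 * t + 2000 * t * u + 1500 * t ^ 2) * h
  · linear_combination (-1510 - 92 * u + 100 * u ^ 2 + 340 * t + 800 * t * u + 560 * t ^ 2 - 200 * t ^ 2 * u - 200 * t ^ 3) * h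
  · linear_combination (-30 - 10 * u) * h
  · linear_combination (80 + 30 * u) * h
  · linear_combination (-140 - 50 * u + 50 * t) * h
  · linear_combination (0) * h
  · linear_combination (250 - 130 * t) * h
  · linear_combination (-620 + 390 * t) * h
  · linear_combination (0) * h
  · linear_combination (500 - 120 * u - 130 * u ^ 2 - 380 * t + 130 * t ^ 2) * h

theorem isometry (t u : R) (h : t * u = 1) : (PP u t)ᵀ * NL t u * PP t u = NQ t u := by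
  rw [Matrix.mul_assoc, NL_mul_PP t u h, ← Matrix.mul_assoc, ← Matrix.transpose_mul,
    PI_mul_PP u t (by rw [mul_comm]; exact h), Matrix.transpose_one, Matrix.one_mul]

theorem PP_mul_PI (t u : R) (h : t * u = 1) : PP t u * PI t u = 1 :=
  mul_eq_one_comm.1 (PI_mul_PP t u h)

end Pool.Agent.N498.ZS
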